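import Pool.Agent.NL.StmtsM

/-!
# NLO, row MEA: measurability of norms
-/

set_option autoImplicit false

open MeasureTheory Filter Topology Set

namespace Pool.Agent.NL.H21

open Pool.Agent.NL

/-- the norm of a family with measurable coordinates is measurable -/
theorem mea_norm {T : Type*} [MeasurableSpace T] (h : T → Z)
    (hm : ∀ k, Measurable fun t => h t k) : Measurable fun t => ‖h t‖ := by
  have h1 : (fun t => ‖h t‖) = fun t => ⨆ k, ‖h t k‖ := by
    funext t
    exact BoundedContinuousFunction.norm_eq_iSup_norm _
  rw [h1]
  exact Measurable.iSup fun k => (hm k).norm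

theorem mea : MeaStmt := by
  intro G hG
  refine ⟨fun z c => ?_, fun l β z => ?_⟩
  · refine mea_norm (fun x => z + c • G x) fun k => ?_
    have : (fun x => (z + c • G x) k) = fun x => z k + c * G x k := by
      funext x
      rfl
    rw [this]
    exact measurable_const.add ((hG k).const_mul c)
  · refine mea_norm (fun v : Fin l → ℝ => ∑ i, β i • G (v i) - z) fun k => ?_
    have : (fun v : Fin l → ℝ => (∑ i, β i • G (v i) - z) k) =
        fun v => ∑ i, β i * G (v i) k - z k := by
      funext v
      rw [BoundedContinuousFunction.sub_apply, BoundedContinuousFunction.sum_apply]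
      rfl
    rw [this]
    refine Measurable.sub ?_ measurable_const
    refine Finset.measurable_sum _ fun i _ => ?_
    exact ((hG k).comp (measurable_pi_apply i)).const_mul (β i)

end Pool.Agent.NL.H21
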